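import Pool.Agent.Helper1.RG.Defs

/-!
# Row E2: many good rotations of the character
-/

set_option autoImplicit false

open MeasureTheory Complex
open Pool.Agent.Helper1.RG
open scoped ComplexConjugate

namespace Pool.Agent.Helper70.RG

/-! ### Gaussian integers and units -/

theorem ZI_mul {x y : ℂ} (hx : x ∈ ZI) (hy : y ∈ ZI) : x * y ∈ ZI := by
  obtain ⟨a, b, rfl⟩ := hx
  obtain ⟨c, d, rfl⟩ := hy
  refine ⟨a * c - b * d, a * d + b * c, ?_⟩
  push_cast
  linear_combination (b * d : ℂ) * I_mul_I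

theorem ZI_one : (1 : ℂ) ∈ ZI := ⟨1, 0, by simp⟩

theorem QI_mul {x y : ℂ} (hx : x ∈ QI) (hy : y ∈ QI) : x * y ∈ QI := by
  obtain ⟨a, b, rfl⟩ := hx
  obtain ⟨c, d, rfl⟩ := hy
  refine ⟨a * c - b * d, a * d + b * c, ?_⟩
  push_cast
  linear_combination (b * d : ℂ) * I_mul_I

theorem QU_mul {x y : ℂ} (hx : x ∈ QU) (hy : y ∈ QU) : x * y ∈ QU :=
  ⟨QI_mul hx.1 hy.1, by rw [norm_mul, hx.2, hy.2, one_mul]⟩

theorem QU_one : (1 : ℂ) ∈ QU := ⟨⟨1, 0, by simp⟩, by simp⟩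

theorem QU_inv {x : ℂ} (hx : x ∈ QU) : x⁻¹ ∈ QU := by
  have h1 : normSq x = 1 := by
    rw [normSq_eq_norm_sq, hx.2]
    norm_num
  refine ⟨?_, by rw [norm_inv, hx.2, inv_one]⟩
  obtain ⟨a, b, h⟩ := hx.1
  refine ⟨a, -b, ?_⟩
  rw [inv_def, h1, h]
  simp

/-! ### heights -/

theorem Ht_mul {h h' : ℂ} {B B' : ℝ} (H : Ht h B) (H' : Ht h' B') : Ht (h * h') (B * B') := by
  obtain ⟨a, ha, b, hb, ha0, hab, rfl, haB⟩ := H
  obtain ⟨a', ha', b', hb', ha0', hab', rfl, haB'⟩ := H'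
  refine ⟨a * a', ZI_mul ha ha', b * b', ZI_mul hb hb', mul_ne_zero ha0 ha0', ?_, ?_, ?_⟩
  · rw [norm_mul, norm_mul, hab, hab']
  · rw [div_mul_div_comm]
  · rw [norm_mul]
    exact mul_le_mul haB haB' (norm_nonneg _) ((norm_nonneg _).trans haB)

theorem Ht_one : Ht 1 1 := ⟨1, ZI_one, 1, ZI_one, one_ne_zero, rfl, by simp, by simp⟩

theorem Ht_mono {h : ℂ} {B B' : ℝ} (H : Ht h B) (hB : B ≤ B') : Ht h B' := by
  obtain ⟨a, ha, b, hb, ha0, hab, hh, haB⟩ := H
  exact ⟨a, ha, b, hb, ha0, hab, hh, haB.trans hB⟩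

theorem Ht_inv {h : ℂ} {B : ℝ} (H : Ht h B) : Ht h⁻¹ B := by
  obtain ⟨a, ha, b, hb, ha0, hab, rfl, haB⟩ := H
  refine ⟨b, hb, a, ha, ?_, hab.symm, by rw [inv_div], hab ▸ haB⟩
  rw [← norm_ne_zero_iff, ← hab]
  exact norm_ne_zero_iff.2 ha0

theorem Ht_prod {n : ℕ} (h : Fin n → ℂ) (B : Fin n → ℝ) (H : ∀ i, Ht (h i) (B i)) :
    Ht (∏ i, h i) (∏ i, B i) := by
  induction n with
  | zero => simpa using Ht_one
  | succ n ih =>
    rw [Fin.prod_univ_castSucc, Fin.prod_univ_castSucc]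
    exact Ht_mul (ih _ _ fun i => H _) (H _)

theorem Ht_wu {a X : ℕ} (h : a < X) : Ht (wu a) (5 * (X : ℝ)) := by
  have h1 : ‖(5 * (a : ℂ) + I)‖ = ‖(5 * (a : ℂ) - I)‖ := by
    have : (5 * (a : ℂ) - I) = conj (5 * (a : ℂ) + I) := by
      simp [map_ofNat]
      ring
    rw [this, norm_conj]
  refine ⟨5 * a + I, ⟨5 * a, 1, by push_cast; ring⟩, 5 * a - I, ⟨5 * a, -1, by push_cast; ring⟩,
    ?_, h1, rfl, ?_⟩
  · intro h0
    have := congrArg Complex.im h0
    simp at this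
  · refine (norm_add_le _ _).trans ?_
    have h2 : ‖(5 * (a : ℂ))‖ = 5 * (a : ℝ) := by
      rw [norm_mul, norm_natCast]
      norm_num
    rw [h2, norm_I]
    have : (a : ℝ) + 1 ≤ X := by exact_mod_cast h
    linarith

/-! ### choice of the factors -/

theorem pick (n : ℕ) (N : ℕ → ℕ) (hN : ∀ n, 1 ≤ N n)
    (F : ((i : Fin (n + 1)) → Fin (N i)) → ((i : Fin (n + 1)) → Fin (N i)) → ℝ)
    (hF : (∑ a, ∑ a', F a a') / ((∏ i ∈ Finset.range (n + 1), (N i : ℝ)) ^ 2) ≤ 1 / 2) :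
    ∃ (b : (i : Fin n) → Fin (N (Fin.castSucc i))) (a' : (i : Fin (n + 1)) → Fin (N i)),
      ∑ x : Fin (N (Fin.last n)),
        F (Fin.snoc (α := fun i : Fin (n + 1) => Fin (N i)) b x) a' ≤ (N n : ℝ) / 2 := by
  by_contra hcon
  push Not at hcon
  have hpos : (0 : ℝ) < ∏ i ∈ Finset.range (n + 1), (N i : ℝ) :=
    Finset.prod_pos fun i _ => by exact_mod_cast hN i
  rw [div_le_iff₀ (by positivity)] at hF
  have h1 : ∑ a, ∑ a', F a a' = ∑ b : (i : Fin n) → Fin (N (Fin.castSucc i)),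
      ∑ a' : (i : Fin (n + 1)) → Fin (N i), ∑ x : Fin (N (Fin.last n)),
        F (Fin.snoc (α := fun i : Fin (n + 1) => Fin (N i)) b x) a' := by
    rw [← (Fin.snocEquiv fun i : Fin (n + 1) => Fin (N i)).sum_comp
      (fun a => ∑ a', F a a'), Fintype.sum_prod_type, Finset.sum_comm]
    refine Finset.sum_congr rfl fun b _ => ?_
    rw [Finset.sum_comm]
    rfl
  have h2 : ∑ b : (i : Fin n) → Fin (N (Fin.castSucc i)),
      ∑ a' : (i : Fin (n + 1)) → Fin (N i), ((N n : ℝ) / 2) <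
      ∑ b : (i : Fin n) → Fin (N (Fin.castSucc i)),
      ∑ a' : (i : Fin (n + 1)) → Fin (N i), ∑ x : Fin (N (Fin.last n)),
        F (Fin.snoc (α := fun i : Fin (n + 1) => Fin (N i)) b x) a' := by
    have hne1 : Nonempty ((i : Fin n) → Fin (N (Fin.castSucc i))) :=
      ⟨fun i => ⟨0, hN _⟩⟩
    have hne2 : Nonempty ((i : Fin (n + 1)) → Fin (N i)) := ⟨fun i => ⟨0, hN _⟩⟩
    exact Finset.sum_lt_sum_of_nonempty Finset.univ_nonempty fun b _ =>
      Finset.sum_lt_sum_of_nonempty Finset.univ_nonempty fun a' _ => hcon b a'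
  rw [← h1] at h2
  simp only [Finset.sum_const, Finset.card_univ, Fintype.card_pi, Fintype.card_fin,
    nsmul_eq_mul, Nat.cast_prod] at h2
  have h3 : ∏ i : Fin (n + 1), (N i : ℝ) = ∏ i ∈ Finset.range (n + 1), (N i : ℝ) :=
    Fin.prod_univ_eq_prod_range (fun i => (N i : ℝ)) (n + 1)
  have h4 : ∏ i : Fin n, (N (Fin.castSucc i) : ℝ) = ∏ i ∈ Finset.range n, (N i : ℝ) :=
    Fin.prod_univ_eq_prod_range (fun i => (N i : ℝ)) n
  rw [h3, h4] at h2
  have h5 : ∏ i ∈ Finset.range (n + 1), (N i : ℝ) = (∏ i ∈ Finset.range n, (N i : ℝ)) * N n :=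
    Finset.prod_range_succ _ _
  rw [h5] at h2 hF
  nlinarith

theorem st_E2 (hMAX : ST_MAX) (hA1 : ST_A1) (hA4 : ST_A4) : ST_E2 := by
  intro P hP hI V G hV hG hVu X hX
  obtain ⟨hZI, hRR, -⟩ := hA1
  classical
  set f : Om → ℝ := (V \ G).indicator fun _ => 1 with hf
  have hfm : Measurable f := measurable_const.indicator (hV.diff hG)
  have h0 : ∀ χ, 0 ≤ f χ := fun χ => Set.indicator_nonneg (fun _ _ => zero_le_one) χ
  have h1 : ∀ χ, f χ ≤ 1 := fun χ => Set.indicator_le_self' (fun _ _ => zero_le_one) χ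
  have hint : ∫ χ, f χ ∂P = P.real (V \ G) := by
    rw [hf, integral_indicator (hV.diff hG)]
    simp
  have hmax := hMAX P hP hI X (fun _ a => wu a) hX (fun n a _ => (hA4 a).1) f hfm h0 h1 (1 / 2)
    (by norm_num)
  rw [hint] at hmax
  have hunit : ∀ (n : ℕ) (a : (i : Fin n) → Fin (X i)),
      (∏ i, wu (a i)) ∈ QU ∧ (∏ i, wu (a i)) ∈ RR ∧ (∏ i, wu (a i))⁻¹ ∈ RR := by
    intro n a
    rw [← Finset.prod_inv_distrib]
    refine ⟨?_, ?_, ?_⟩
    · exact Finset.prod_induction _ (· ∈ QU) (fun _ _ => QU_mul) QU_one fun i _ => (hA4 _).1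
    · exact Finset.prod_induction _ (· ∈ RR) (fun x y hx hy => (hRR x hx y hy).2.1)
        (hZI 1 ZI_one) fun i _ => (hA4 _).2.1
    · exact Finset.prod_induction _ (· ∈ RR) (fun x y hx hy => (hRR x hx y hy).2.1)
        (hZI 1 ZI_one) fun i _ => (hA4 _).2.2
  have hall : ∀ᵐ χ ∂P, ∀ (n : ℕ) (a a' : (i : Fin n) → Fin (X i)),
      (χ ∈ V ↔ χ.mulShift ((∏ i, wu (a i)) / ∏ i, wu (a' i)) ∈ V) := by
    rw [ae_all_iff]
    intro n
    rw [ae_all_iff]
    intro a
    rw [ae_all_iff]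
    intro a'
    obtain ⟨q1, r1, s1⟩ := hunit n a
    obtain ⟨q2, r2, s2⟩ := hunit n a'
    refine hVu _ ?_ ?_ ?_
    · rw [div_eq_mul_inv]
      exact QU_mul q1 (QU_inv q2)
    · rw [div_eq_mul_inv]
      exact (hRR _ r1 _ s2).2.1
    · rw [inv_div, div_eq_mul_inv]
      exact (hRR _ r2 _ s1).2.1
  have hsub : (V \ EE G X : Set Om) ≤ᵐ[P] {χ | ∃ n, 1 / 2 < Av X (fun _ a => wu a) f n χ} := by
    filter_upwards [hall] with χ hχ hmem
    obtain ⟨hχV, hχE⟩ := hmem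
    by_contra hcon
    apply hχE
    have hcon' : ∀ n, Av X (fun _ a => wu a) f n χ ≤ 1 / 2 := by
      intro n
      by_contra h
      exact hcon ⟨n, not_le.1 h⟩
    intro n
    obtain ⟨b, a', hba⟩ := pick n X hX _ (hcon' (n + 1))
    refine ⟨(∏ i : Fin n, wu (b i)) / ∏ i : Fin (n + 1), wu (a' i), ?_, ?_⟩
    · rw [div_eq_mul_inv]
      have h2 := Ht_prod (fun i : Fin n => wu (b i)) (fun i => 5 * (X i : ℝ)) fun i =>
        Ht_wu (b i).2
      have h3 := Ht_inv (Ht_prod (fun i : Fin (n + 1) => wu (a' i)) (fun i => 5 * (X i : ℝ))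
        fun i => Ht_wu (a' i).2)
      refine Ht_mono (Ht_mul h2 h3) ?_
      rw [Fin.prod_univ_eq_prod_range (fun i => 5 * (X i : ℝ)) (n + 1),
        Fin.prod_univ_eq_prod_range (fun i => 5 * (X i : ℝ)) n, Finset.prod_pow, pow_two]
      refine mul_le_mul_of_nonneg_right ?_ (Finset.prod_nonneg fun i _ => by positivity)
      rw [Finset.prod_range_succ]
      refine le_mul_of_one_le_right (Finset.prod_nonneg fun i _ => by positivity) ?_
      have : (1 : ℝ) ≤ X n := by exact_mod_cast hX n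
      linarith
    · set h : ℂ := (∏ i : Fin n, wu (b i)) / ∏ i : Fin (n + 1), wu (a' i) with hh
      have h4 : ∀ x : Fin (X (Fin.last n)),
          (∏ i : Fin (n + 1), wu (Fin.snoc (α := fun i : Fin (n + 1) => Fin (X i)) b x i)) /
            ∏ i : Fin (n + 1), wu (a' i) = wu x * h := by
        intro x
        rw [Fin.prod_univ_castSucc]
        simp only [Fin.snoc_castSucc, Fin.snoc_last]
        rw [hh]
        ring
      have h5 : ∀ x : Fin (X (Fin.last n)), χ.mulShift (wu x * h) ∈ V := by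
        intro x
        rw [← h4 x]
        exact (hχ (n + 1) _ _).1 hχV
      have h6 : ∑ x : Fin (X (Fin.last n)), (if χ.mulShift (wu x * h) ∈ G then (0 : ℝ) else 1) ≤
          (X n : ℝ) / 2 := by
        refine le_trans (le_of_eq (Finset.sum_congr rfl fun x _ => ?_)) hba
        rw [h4 x, hf]
        by_cases hx : χ.mulShift (wu x * h) ∈ G
        · rw [if_pos hx, Set.indicator_of_notMem]
          exact fun h => h.2 hx
        · rw [if_neg hx, Set.indicator_of_mem]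
          exact ⟨h5 x, hx⟩
      have h7 : ∑ x : Fin (X (Fin.last n)), (if χ.mulShift (wu x * h) ∈ G then (0 : ℝ) else 1) =
          ∑ a ∈ Finset.range (X n), (if χ.mulShift (wu a * h) ∈ G then (0 : ℝ) else 1) :=
        Fin.sum_univ_eq_sum_range
          (fun a => if χ.mulShift (wu a * h) ∈ G then (0 : ℝ) else 1) (X n)
      rw [h7] at h6
      have h8 : (((Finset.range (X n)).filter fun a => χ.mulShift (wu a * h) ∈ G).card : ℝ) =
          ∑ a ∈ Finset.range (X n), (if χ.mulShift (wu a * h) ∈ G then (1 : ℝ) else 0) := by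
        rw [Finset.sum_boole]
      have h9 : ∑ a ∈ Finset.range (X n), (if χ.mulShift (wu a * h) ∈ G then (1 : ℝ) else 0) +
          ∑ a ∈ Finset.range (X n), (if χ.mulShift (wu a * h) ∈ G then (0 : ℝ) else 1) =
          (X n : ℝ) := by
        rw [← Finset.sum_add_distrib]
        rw [Finset.sum_congr rfl (g := fun _ => (1 : ℝ)) fun a _ => by split_ifs <;> norm_num]
        simp
      rw [h8]
      linarith
  have h2 : P (V \ EE G X) ≤ P {χ | ∃ n, 1 / 2 < Av X (fun _ a => wu a) f n χ} :=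
    measure_mono_ae hsub
  have h3 : P.real (V \ EE G X) ≤ P.real {χ | ∃ n, 1 / 2 < Av X (fun _ a => wu a) f n χ} :=
    ENNReal.toReal_mono (measure_ne_top _ _) h2
  refine h3.trans (hmax.trans (le_of_eq ?_))
  ring

end Pool.Agent.Helper70.RG
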