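import Pool.Agent.Helper1.RG.Defs

/-!
# Row PRD: products along an orbit
-/

set_option autoImplicit false

open MeasureTheory Filter Topology
open Pool.Agent.Helper1.RG

namespace Pool.Agent.Helper70.RG

section

variable {Ω : Type} (T : Ω → Ω) (p : Ω → ℝ)

/-- the products -/
noncomputable def gg (L : ℕ) (ω : Ω) : ℝ := ∏ j ∈ Finset.range L, p (T^[j] ω)

variable {T p}

theorem gg_nonneg (h0 : ∀ ω, 0 ≤ p ω) (L : ℕ) (ω : Ω) : 0 ≤ gg T p L ω :=
  Finset.prod_nonneg fun _ _ => h0 _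

theorem gg_le_one (h0 : ∀ ω, 0 ≤ p ω) (h1 : ∀ ω, p ω ≤ 1) (L : ℕ) (ω : Ω) : gg T p L ω ≤ 1 :=
  Finset.prod_le_one (fun _ _ => h0 _) fun _ _ => h1 _

theorem gg_succ (L : ℕ) (ω : Ω) : gg T p (L + 1) ω = gg T p L ω * p (T^[L] ω) := by
  unfold gg
  rw [Finset.prod_range_succ]

theorem gg_succ' (L : ℕ) (ω : Ω) : gg T p (L + 1) ω = p ω * gg T p L (T ω) := by
  unfold gg
  rw [Finset.prod_range_succ']
  simp only [Function.iterate_zero, id_eq, Function.iterate_succ_apply]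
  ring

theorem gg_anti (h0 : ∀ ω, 0 ≤ p ω) (h1 : ∀ ω, p ω ≤ 1) (ω : Ω) :
    Antitone fun L => gg T p L ω := by
  refine antitone_nat_of_succ_le fun L => ?_
  rw [gg_succ]
  exact mul_le_of_le_one_right (gg_nonneg h0 L ω) (h1 _)

theorem gg_bdd (h0 : ∀ ω, 0 ≤ p ω) (ω : Ω) : BddBelow (Set.range fun L => gg T p L ω) :=
  ⟨0, by rintro _ ⟨L, rfl⟩; exact gg_nonneg h0 L ω⟩

theorem gg_tendsto (h0 : ∀ ω, 0 ≤ p ω) (h1 : ∀ ω, p ω ≤ 1) (ω : Ω) :
    Tendsto (fun L => gg T p L ω) atTop (𝓝 (⨅ L, gg T p L ω)) :=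
  tendsto_atTop_ciInf (gg_anti h0 h1 ω) (gg_bdd h0 ω)

theorem mem_VV (ω : Ω) : ω ∈ VV T p ↔ ∃ n : ℕ, ∀ L : ℕ, 1 / ((n : ℝ) + 1) ≤ gg T p L ω := Iff.rfl

theorem mem_VV_iff (h0 : ∀ ω, 0 ≤ p ω) (ω : Ω) : ω ∈ VV T p ↔ 0 < ⨅ L, gg T p L ω := by
  rw [mem_VV]
  constructor
  · rintro ⟨n, hn⟩
    exact lt_of_lt_of_le (by positivity) (le_ciInf hn)
  · intro h
    obtain ⟨n, hn⟩ := exists_nat_one_div_lt h
    exact ⟨n, fun L => hn.le.trans (ciInf_le (gg_bdd h0 ω) L)⟩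

end

theorem st_PRD : ST_PRD := by
  intro Ω _ P hP T p c hT hp h0 h1 hc
  have hgm : ∀ L, Measurable (gg T p L) := fun L =>
    Finset.measurable_fun_prod _ fun j _ => hp.comp (hT.measurable.iterate j)
  have hVm : MeasurableSet (VV T p) := by
    have : VV T p = ⋃ n : ℕ, ⋂ L : ℕ, {ω | 1 / ((n : ℝ) + 1) ≤ gg T p L ω} := by
      ext ω
      simp [mem_VV]
    rw [this]
    exact MeasurableSet.iUnion fun n => MeasurableSet.iInter fun L =>
      measurableSet_le measurable_const (hgm L)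
  have hsub : ∀ ω, ω ∈ VV T p → T ω ∈ VV T p := by
    rintro ω ⟨n, hn⟩
    refine ⟨n, fun L => ?_⟩
    have h2 : (1 : ℝ) / (n + 1) ≤ gg T p (L + 1) ω := hn (L + 1)
    rw [gg_succ'] at h2
    exact h2.trans (mul_le_of_le_one_left (gg_nonneg h0 L _) (h1 _))
  refine ⟨hVm, ?_, ?_, ?_⟩
  · have hlim : Tendsto (fun L => ∫ ω, gg T p L ω ∂P) atTop
        (𝓝 (∫ ω, ⨅ L, gg T p L ω ∂P)) := by
      refine tendsto_integral_of_dominated_convergence (fun _ => (1 : ℝ))
        (fun L => (hgm L).aestronglyMeasurable) (integrable_const _) (fun L => ?_) ?_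
      · refine ae_of_all _ fun ω => ?_
        rw [Real.norm_eq_abs, abs_of_nonneg (gg_nonneg h0 L ω)]
        exact gg_le_one h0 h1 L ω
      · exact ae_of_all _ fun ω => gg_tendsto h0 h1 ω
    have h2 : c ≤ ∫ ω, ⨅ L, gg T p L ω ∂P := ge_of_tendsto' hlim hc
    refine h2.trans ?_
    have h3 : P.real (VV T p) = ∫ ω, (VV T p).indicator (fun _ => (1 : ℝ)) ω ∂P := by
      rw [integral_indicator hVm]
      simp
    rw [h3]
    have hmeas : Measurable fun ω => ⨅ L, gg T p L ω := Measurable.iInf hgm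
    refine integral_mono ?_ ((integrable_const (1 : ℝ)).indicator hVm) fun ω => ?_
    · refine Integrable.of_bound hmeas.aestronglyMeasurable 1 (ae_of_all _ fun ω => ?_)
      have h4 : 0 ≤ ⨅ L, gg T p L ω := le_ciInf fun L => gg_nonneg h0 L ω
      rw [Real.norm_eq_abs, abs_of_nonneg h4]
      exact (ciInf_le (gg_bdd h0 ω) 0).trans (gg_le_one h0 h1 0 ω)
    · by_cases h : ω ∈ VV T p
      · simp only [Set.indicator_of_mem h]
        exact (ciInf_le (gg_bdd h0 ω) 0).trans (gg_le_one h0 h1 0 ω)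
      · simp only [Set.indicator_of_notMem h]
        rw [mem_VV_iff h0] at h
        exact not_lt.1 h
  · have h2 : P (VV T p) = P (T ⁻¹' VV T p) := (hT.measure_preimage hVm.nullMeasurableSet).symm
    have hs : VV T p ⊆ T ⁻¹' VV T p := fun ω hω => hsub ω hω
    have h3 : P (T ⁻¹' VV T p \ VV T p) = 0 := by
      rw [measure_sdiff hs hVm.nullMeasurableSet (measure_ne_top _ _), ← h2, tsub_self]
    rw [ae_iff]
    refine measure_mono_null (fun ω hω => ?_) h3
    replace hω : ¬ (ω ∈ VV T p ↔ T ω ∈ VV T p) := hω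
    by_cases h4 : ω ∈ VV T p
    · exact absurd ⟨fun _ => hsub ω h4, fun _ => h4⟩ hω
    · by_cases h5 : T ω ∈ VV T p
      · exact ⟨h5, h4⟩
      · exact absurd ⟨fun h => absurd h h4, fun h => absurd h h5⟩ hω
  · have key : ∀ k : ℕ, ∀ᵐ ω ∂P, ω ∈ VV T p → 1 - 1 / ((k : ℝ) + 1) < p ω := by
      intro k
      set A : Set Ω := VV T p ∩ {ω | p ω ≤ 1 - 1 / ((k : ℝ) + 1)} with hA
      have hAm : MeasurableSet A := hVm.inter (measurableSet_le hp measurable_const)
      have hcons : Conservative T P := hT.conservative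
      have h2 := hcons.ae_mem_imp_frequently_image_mem hAm.nullMeasurableSet
      filter_upwards [h2] with ω hω hωV
      by_contra h3
      have h4 : ω ∈ A := ⟨hωV, not_lt.1 h3⟩
      have h5 := hω h4
      have h6 := (mem_VV_iff h0 ω).1 hωV
      set l := ⨅ L, gg T p L ω with hl
      have h7 : Tendsto (fun L => (1 - 1 / ((k : ℝ) + 1)) * gg T p L ω) atTop
          (𝓝 ((1 - 1 / ((k : ℝ) + 1)) * l)) := (gg_tendsto h0 h1 ω).const_mul _
      have h8 : (1 - 1 / ((k : ℝ) + 1)) * l < l := by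
        have : 0 < 1 / ((k : ℝ) + 1) := by positivity
        nlinarith
      have h9 := h7.eventually (gt_mem_nhds h8)
      obtain ⟨n, hn1, hn2⟩ := (h5.and_eventually h9).exists
      have h10 : l ≤ gg T p (n + 1) ω := ciInf_le (gg_bdd h0 ω) (n + 1)
      rw [gg_succ] at h10
      have h11 : gg T p n ω * p (T^[n] ω) ≤ gg T p n ω * (1 - 1 / ((k : ℝ) + 1)) :=
        mul_le_mul_of_nonneg_left hn1.2 (gg_nonneg h0 n ω)
      nlinarith
    filter_upwards [ae_all_iff.2 key] with ω hω hωV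
    refine le_antisymm (h1 ω) (le_of_forall_pos_lt_add fun ε hε => ?_)
    obtain ⟨k, hk⟩ := exists_nat_one_div_lt hε
    have := hω k hωV
    linarith

end Pool.Agent.Helper70.RG
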